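import Pool.Agent.R281.OP3.RidCore
import Pool.Agent.R972.OP.Stm4

/-!
# OP3-RID
-/

set_option autoImplicit false

namespace Pool.Agent.R281.OP3

theorem t_RID : Pool.Agent.R972.OP.S_RID :=
  fun n ι _ v V V' A c hA hV hm hl hi => rid n ι v V V' A c hA hV hm hl hi

end Pool.Agent.R281.OP3
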