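import Pool.Agent.W695.KH.Defs

/-!
# Sums of convex ridge functions are admissible potentials
-/

set_option autoImplicit false

open MeasureTheory Set Filter Topology
open scoped ENNReal InnerProductSpace
open Pool.Agent.W695.KH (Eu Pot)

namespace Pool.Agent.R281.OP3

lemma quad {ι : Type} [Fintype ι] {E : Type} [NormedAddCommGroup E] [InnerProductSpace ℝ E]
    (v : ι → E) (δ s : ι → ℝ) (A : ℝ) (d w : E) (hw : w = ∑ i, δ i • v i)
    (hs : ∀ i, s i = ⟪v i, d⟫_ℝ) (h0 : ∀ i, 0 ≤ δ i * s i) (h1 : ∀ i, δ i ^ 2 ≤ A * (δ i * s i)) :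
    ‖w‖ ^ 2 ≤ A * (∑ i, ‖v i‖ ^ 2) * ⟪d, w⟫_ℝ ∧ 0 ≤ ⟪d, w⟫_ℝ := by
  have hSv0 : 0 ≤ ∑ i, ‖v i‖ ^ 2 := Finset.sum_nonneg fun i _ => by positivity
  have e1 : ⟪d, w⟫_ℝ = ∑ i, δ i * s i := by
    rw [hw, inner_sum]
    apply Finset.sum_congr rfl
    intro i _
    rw [real_inner_smul_right, hs i, real_inner_comm]
  have h2 : ‖w‖ ≤ ∑ i, |δ i| * ‖v i‖ := by
    rw [hw]
    refine (norm_sum_le _ _).trans (le_of_eq ?_)
    apply Finset.sum_congr rfl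
    intro i _
    rw [norm_smul, Real.norm_eq_abs]
  have h3 : (∑ i, |δ i| * ‖v i‖) ^ 2 ≤ (∑ i, |δ i| ^ 2) * ∑ i, ‖v i‖ ^ 2 :=
    Finset.sum_mul_sq_le_sq_mul_sq _ _ _
  simp only [sq_abs] at h3
  have h4 : ‖w‖ ^ 2 ≤ (∑ i, δ i ^ 2) * ∑ i, ‖v i‖ ^ 2 :=
    (pow_le_pow_left₀ (norm_nonneg _) h2 2).trans h3
  have h5 : ∑ i, δ i ^ 2 ≤ A * ∑ i, δ i * s i := by
    rw [Finset.mul_sum]
    exact Finset.sum_le_sum fun i _ => h1 i
  rw [e1]
  refine ⟨h4.trans ?_, Finset.sum_nonneg fun i _ => h0 i⟩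
  have h6 := mul_le_mul_of_nonneg_right h5 hSv0
  refine h6.trans (le_of_eq ?_)
  ring

lemma mono_ineq {f : ℝ → ℝ} {A : ℝ} (hm : Monotone f) (hl : ∀ s t, |f s - f t| ≤ A * |s - t|)
    (s t : ℝ) : 0 ≤ (f s - f t) * (s - t) ∧ (f s - f t) ^ 2 ≤ A * ((f s - f t) * (s - t)) := by
  have h2 : 0 ≤ (f s - f t) * (s - t) := by
    rcases le_total s t with h | h
    · exact mul_nonneg_of_nonpos_of_nonpos (sub_nonpos.2 (hm h)) (sub_nonpos.2 h)
    · exact mul_nonneg (sub_nonneg.2 (hm h)) (sub_nonneg.2 h)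
  refine ⟨h2, ?_⟩
  have h4 := hl s t
  rw [← abs_of_nonneg h2, abs_mul, ← sq_abs]
  have h5 := mul_le_mul_of_nonneg_right h4 (abs_nonneg (f s - f t))
  linarith

lemma lipb {x q A : ℝ} (hx : 0 ≤ x) (hA : 0 ≤ A) (hq : 0 ≤ q) (h : x ^ 2 ≤ A * (q * x)) :
    x ≤ (1 + A) * q := by
  rcases hx.eq_or_lt with h0 | h0
  · rw [← h0]
    positivity
  · have h1 : x * x ≤ A * q * x := by nlinarith
    have h2 : x ≤ A * q := le_of_mul_le_mul_right h1 h0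
    linarith

lemma intb {x y z B : ℝ} (hx : 0 ≤ x) (h : x ≤ y + B * z) :
    1 + x ^ 2 ≤ (1 + 2 * y ^ 2 + 2 * B ^ 2) * (1 + z ^ 2) := by
  have h2 : x ^ 2 ≤ (y + B * z) ^ 2 := pow_le_pow_left₀ hx h 2
  nlinarith [sq_nonneg (y - B * z), sq_nonneg (y * z), sq_nonneg z, sq_nonneg B]

theorem rid (n : ℕ) (ι : Type) [Fintype ι] (v : ι → Eu (Fin n)) (V V' : ι → ℝ → ℝ)
    (A c : ℝ) (hA : 0 < A) (hV : ∀ i s, HasDerivAt (V i) (V' i s) s) (hm : ∀ i, Monotone (V' i))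
    (hl : ∀ i s t, |V' i s - V' i t| ≤ A * |s - t|)
    (hi : Integrable (fun x : Eu (Fin n) =>
      (1 + ‖x‖ ^ 2) * Real.exp (-(∑ i, V i ⟪v i, x⟫_ℝ + c)))) :
    ∃ (b : Eu (Fin n) → Eu (Fin n)) (A' : ℝ), Pot (fun x => ∑ i, V i ⟪v i, x⟫_ℝ + c) b A' := by
  obtain ⟨b, hb⟩ : ∃ b : Eu (Fin n) → Eu (Fin n), b = fun x => ∑ i, V' i ⟪v i, x⟫_ℝ • v i :=
    ⟨_, rfl⟩
  obtain ⟨S, hS⟩ : ∃ S : ℝ, S = A * ∑ i, ‖v i‖ ^ 2 := ⟨_, rfl⟩
  have hS0 : 0 ≤ S := by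
    rw [hS]
    exact mul_nonneg hA.le (Finset.sum_nonneg fun i _ => by positivity)
  have hkey : ∀ x y, ‖b x - b y‖ ^ 2 ≤ S * ⟪x - y, b x - b y⟫_ℝ ∧
      0 ≤ ⟪x - y, b x - b y⟫_ℝ := by
    intro x y
    rw [hS]
    apply quad v (fun i => V' i ⟪v i, x⟫_ℝ - V' i ⟪v i, y⟫_ℝ)
      (fun i => ⟪v i, x⟫_ℝ - ⟪v i, y⟫_ℝ) A (x - y) (b x - b y)
    · rw [hb]
      simp only [← Finset.sum_sub_distrib, sub_smul]
    · intro i
      rw [inner_sub_right]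
    · intro i
      exact (mono_ineq (hm i) (hl i) _ _).1
    · intro i
      exact (mono_ineq (hm i) (hl i) _ _).2
  have hlip : ∀ x y, ‖b x - b y‖ ≤ (1 + S) * ‖x - y‖ := by
    intro x y
    obtain ⟨h1, h2⟩ := hkey x y
    have h3 : ⟪x - y, b x - b y⟫_ℝ ≤ ‖x - y‖ * ‖b x - b y‖ := real_inner_le_norm _ _
    exact lipb (norm_nonneg _) hS0 (norm_nonneg _) (h1.trans (mul_le_mul_of_nonneg_left h3 hS0))
  have hAp : 0 < 1 + S := by positivity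
  have hbc : Continuous b := by
    have : LipschitzWith (Real.toNNReal (1 + S)) b := by
      apply LipschitzWith.of_dist_le_mul
      intro x y
      rw [dist_eq_norm, dist_eq_norm, Real.coe_toNNReal _ hAp.le]
      exact hlip x y
    exact this.continuous
  have hder : ∀ x, HasFDerivAt (fun x => ∑ i, V i ⟪v i, x⟫_ℝ + c) (innerSL ℝ (b x)) x := by
    intro x
    have h1 : ∀ i ∈ (Finset.univ : Finset ι), HasFDerivAt (fun x => V i ⟪v i, x⟫_ℝ)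
        (V' i ⟪v i, x⟫_ℝ • innerSL ℝ (v i)) x := by
      intro i _
      have h2 : HasFDerivAt (fun x : Eu (Fin n) => ⟪v i, x⟫_ℝ) (innerSL ℝ (v i)) x :=
        (innerSL ℝ (v i)).hasFDerivAt
      exact (hV i ⟪v i, x⟫_ℝ).comp_hasFDerivAt x h2
    have h3 := (HasFDerivAt.fun_sum h1).add_const c
    have e : innerSL ℝ (b x) = ∑ i, V' i ⟪v i, x⟫_ℝ • innerSL ℝ (v i) := by
      ext z
      rw [hb]
      simp [sum_inner, inner_smul_left]
    rw [e]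
    exact h3
  have hUc : Continuous (fun x => ∑ i, V i ⟪v i, x⟫_ℝ + c) :=
    continuous_iff_continuousAt.2 fun x => (hder x).continuousAt
  refine ⟨b, 1 + S, hAp, hder, hlip, ?_, ?_⟩
  · intro h hh hhA x y
    obtain ⟨h1, h2⟩ := hkey x y
    have e : (x - h • b x) - (y - h • b y) = (x - y) - h • (b x - b y) := by
      rw [smul_sub]
      abel
    rw [e]
    apply le_of_sq_le_sq _ (norm_nonneg _)
    rw [norm_sub_sq_real, real_inner_smul_right, norm_smul, mul_pow, Real.norm_eq_abs, sq_abs]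
    generalize ⟪x - y, b x - b y⟫_ℝ = q at *
    have h3 : h * S ≤ 1 := by nlinarith
    have h4 : h ^ 2 * ‖b x - b y‖ ^ 2 ≤ h ^ 2 * (S * q) :=
      mul_le_mul_of_nonneg_left h1 (by positivity)
    have h5 : 0 ≤ h * q := mul_nonneg hh h2
    have h6 : h * q * (h * S) ≤ h * q * 1 := mul_le_mul_of_nonneg_left h3 h5
    linarith [h4, h5, h6, show h ^ 2 * (S * q) = h * q * (h * S) by ring]
  · refine (hi.const_mul (1 + 2 * ‖b 0‖ ^ 2 + 2 * (1 + S) ^ 2)).mono' ?_ (ae_of_all _ fun x => ?_)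
    · exact ((continuous_const.add ((hbc.norm).pow 2)).mul
        (Real.continuous_exp.comp hUc.neg)).aestronglyMeasurable
    · have h1 : ‖b x‖ ≤ ‖b 0‖ + (1 + S) * ‖x‖ := by
        have h2 := hlip x 0
        rw [sub_zero] at h2
        have h3 : ‖b x‖ ≤ ‖b x - b 0‖ + ‖b 0‖ := by
          have := norm_add_le (b x - b 0) (b 0)
          rwa [sub_add_cancel] at this
        linarith
      have h3 := intb (norm_nonneg _) h1
      rw [Real.norm_eq_abs, abs_of_nonneg (by positivity), ← mul_assoc]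
      exact mul_le_mul_of_nonneg_right h3 (Real.exp_pos _).le

end Pool.Agent.R281.OP3
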